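import Pool.Agent.H75.Lv.Site3
import Pool.Agent.H93.SM.Iface

set_option autoImplicit false

/-!
# MP_2e6055, module INST: potentials and closed statements of the fields of `Sys.In` (helper87)

`v` = a site, `j0` = its top scale, `j0 - k` = the current scale (`k < j0`).
-/

namespace Pool.Agent.H87.Inst

open Pool.Agent.H7.UC Pool.Agent.H74.Tri Pool.Agent.H75.Perc Pool.Agent.H89.Per Pool.Agent.H75.Lv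
open Pool.Agent.H75.Per (CX IsStop Meas I)
open Pool.Agent.H93.SM (gv)
open Classical

attribute [-instance] instDecidableEqSum

variable {c : Cf}

/-- the unexplored component of `v` at the index `t` -/
noncomputable def Uo (ω : Finset c.al) (t : ℕ) (v : Fc) : Finset Fc :=
  unx (box c.m c.n) (Om ω) p0 t v

/-- the index at which `Bx v ρ_{j0-k}` is visited -/
noncomputable def tk (v : Fc) (j0 k : ℕ) (ω : Finset c.al) : ℕ := fi (Bx v (c.rho (j0 - k))) ω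

/-- the index of the attempt of the scale `j0 - k` -/
noncomputable def ta (v : Fc) (j0 k : ℕ) (ω : Finset c.al) : ℕ :=
  fi (c.En (j0 - k) (c.sq (j0 - k) v)) ω

/-- the potential at the visit of `Bx v ρ`, in units `ρ^(-1/4)` -/
noncomputable def Gk (v : Fc) (j0 k : ℕ) (ω : Finset c.al) : ℝ :=
  if alv v j0 k ω then (c.rho (j0 - k) : ℝ) ^ ((1 / 4) : ℝ) * gv (Uo ω (tk v j0 k ω) v) (Om ω) v else 0

/-- the potential at the attempt, in the same units -/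
noncomputable def GAk (v : Fc) (j0 k : ℕ) (ω : Finset c.al) : ℝ :=
  if mad v j0 k ω then (c.rho (j0 - k) : ℝ) ^ ((1 / 4) : ℝ) * gv (Uo ω (ta v j0 k ω) v) (Om ω) v else 0

/-- fixed parameters -/
structure Pr0 (c : Cf) (g : Gm) (s3 : ℝ) (l : ℕ) (L : ℤ) (a0 : ℕ) : Prop where
  ok : c.Ok
  hg : c.g = g
  hs : c.s3 = s3
  hl : c.l = l
  hL : c.L = L
  ha : a0 ≤ c.a

/-- GBD (bounds of the potentials) -/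
def GBD : Prop := ∀ c : Cf, c.Ok → ∀ (v : c.V) (j0 k : ℕ) (ω : Finset c.al), c.use j0 (em v) →
  k ≤ j0 → 0 ≤ Gk (em v) j0 k ω ∧ Gk (em v) j0 k ω ≤ 4 ∧ 0 ≤ GAk (em v) j0 k ω

/-- MG (measurability) -/
def MG : Prop := ∀ c : Cf, c.Ok → ∀ (v : c.V) (j0 k : ℕ), c.use j0 (em v) → k ≤ j0 →
  Meas (Finset.univ : Finset c.al) (Rg (Bx (em v) (c.rho (j0 - k)))) (Gk (em v) j0 k)

/-- CENF: the attempts are made in central positions (from `OS'` with `l = 100` and `Adm`). -/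
def CENF : Prop := ∃ C : ℝ, 0 < C ∧ ∀ s3 : ℝ, 0 < s3 → ∃ a0 : ℕ, ∀ c : Cf, c.Ok → c.s3 = s3 →
  a0 ≤ c.a → ∀ (v : c.V) (j0 k : ℕ), c.use j0 (em v) → k < j0 → ∀ ω : Finset c.al,
  mad (em v) j0 k ω → s3 * (c.g.N : ℝ) ^ ((1 / 4) : ℝ) / C ≤ GAk (em v) j0 k ω

/-- OS1F -/
def OS1F : Prop := ∀ (g : Gm) (s3 : ℝ) (l : ℕ) (L : ℤ) (e : ℝ), 0 < e → ∃ a0 : ℕ, ∀ c : Cf,
  Pr0 c g s3 l L a0 → ∀ (v : c.V) (j0 k : ℕ), c.use j0 (em v) → k < j0 → ∀ ω : Finset c.al,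
  alv (em v) j0 k ω → CX Finset.univ (Rg (Bx (em v) (c.rho (j0 - k))) ω) ω
    (fun ω' => I (mad (em v) j0 k ω') * GAk (em v) j0 k ω' +
      I (alv (em v) j0 (k + 1) ω' ∧ ¬ mad (em v) j0 k ω') *
        ((l : ℝ) ^ ((1 / 4) : ℝ) * Gk (em v) j0 (k + 1) ω')) ≤ Gk (em v) j0 k ω + e

/-- OS2F -/
def OS2F : Prop := ∀ (g : Gm) (s3 : ℝ) (l : ℕ) (L : ℤ) (e : ℝ), 0 < e → ∃ a0 : ℕ, ∀ c : Cf,
  Pr0 c g s3 l L a0 → ∀ (v : c.V) (j0 k : ℕ), c.use j0 (em v) → k < j0 → ∀ ω : Finset c.al,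
  mad (em v) j0 k ω → CX Finset.univ (AR (em v) j0 k ω) ω
    (fun ω' => I (alv (em v) j0 (k + 1) ω') * ((l : ℝ) ^ ((1 / 4) : ℝ) * Gk (em v) j0 (k + 1) ω')) ≤
    GAk (em v) j0 k ω + e

/-- F4F -/
def F4F : Prop := ∃ C0 : ℝ, 1 ≤ C0 ∧ ∀ (g : Gm) (s3 : ℝ) (l : ℕ) (L : ℤ) (e : ℝ), 0 < e →
  ∃ a0 : ℕ, ∀ c : Cf, Pr0 c g s3 l L a0 → ∀ (v : c.V) (j0 k : ℕ), c.use j0 (em v) → k < j0 →
  ∀ ω : Finset c.al, alv (em v) j0 k ω → CX Finset.univ (Rg (Bx (em v) (c.rho (j0 - k))) ω) ω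
    (fun ω' => I (alv (em v) j0 (k + 1) ω')) ≤
    C0 / (l : ℝ) ^ ((1 / 4) : ℝ) * (Gk (em v) j0 k ω + e)

/-- the exploration leaves `Bx v (L ρ)` between the two visits / before the attempt -/
def NLk (v : Fc) (j0 k : ℕ) (ω : Finset c.al) : Prop :=
  Disjoint (Rg (Bx v (c.rho (j0 - (k + 1)))) ω \ Rg (Bx v (c.rho (j0 - k))) ω) (FF v j0 k)
def NLAk (v : Fc) (j0 k : ℕ) (ω : Finset c.al) : Prop :=
  Disjoint (AR v j0 k ω \ Rg (Bx v (c.rho (j0 - k))) ω) (FF v j0 k)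
def NTk (v : Fc) (j0 k : ℕ) (ω : Finset c.al) : Prop :=
  Disjoint (Rg (Bx v (c.rho (j0 - (k + 1)))) ω) (FR v j0 k ω)

/-- LRF (from `RET`) -/
def LRF : Prop := ∃ C0 : ℝ, 1 ≤ C0 ∧ ∀ e2 : ℝ, 0 < e2 → ∃ L0 : ℤ, ∀ L : ℤ, L0 ≤ L →
  ∀ (g : Gm) (s3 : ℝ) (l : ℕ), ∃ a0 : ℕ, ∀ c : Cf, Pr0 c g s3 l L a0 →
  ∀ (v : c.V) (j0 k : ℕ), c.use j0 (em v) → k < j0 → ∀ ω : Finset c.al, alv (em v) j0 k ω →
  ∀ H ⊆ FF (em v) j0 k, CX Finset.univ (Rg (Bx (em v) (c.rho (j0 - k))) ω ∪ H) ω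
    (fun ω' => I (alv (em v) j0 (k + 1) ω' ∧ ¬ NLk (em v) j0 k ω')) ≤
    C0 / (l : ℝ) ^ ((1 / 4) : ℝ) * e2

/-- LRAF (from `RET` with `ρf = ρ1 = ρ`, or helper58's `ret0`) -/
def LRAF : Prop := ∀ e2 : ℝ, 0 < e2 → ∃ L0 : ℤ, ∀ L : ℤ, L0 ≤ L →
  ∀ (g : Gm) (s3 : ℝ) (l : ℕ), ∃ a0 : ℕ, ∀ c : Cf, Pr0 c g s3 l L a0 →
  ∀ (v : c.V) (j0 k : ℕ), c.use j0 (em v) → k < j0 → ∀ ω : Finset c.al, alv (em v) j0 k ω →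
  ∀ H ⊆ FF (em v) j0 k, CX Finset.univ (Rg (Bx (em v) (c.rho (j0 - k))) ω ∪ H) ω
    (fun ω' => I (mad (em v) j0 k ω' ∧ ¬ NLAk (em v) j0 k ω')) ≤ e2

/-- TOUCHF (from `RET` at the state of the attempt: `ρf = ρ_{k+1}`, `ρ1 = 7 h u / 8`,
`ρ = 9 h u / 8`, `R = N h u / 8`) -/
def TOUCHF : Prop := ∃ C κ : ℝ, 0 < C ∧ 0 < κ ∧ ∀ (g : Gm) (s3 : ℝ) (l : ℕ) (L : ℤ), ∃ a0 : ℕ,
  ∀ c : Cf, Pr0 c g s3 l L a0 → ∀ (v : c.V) (j0 k : ℕ), c.use j0 (em v) → k < j0 →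
  ∀ ω : Finset c.al, mad (em v) j0 k ω → ∀ H ⊆ FF (em v) j0 k,
  CX Finset.univ (AR (em v) j0 k ω ∪ (FR (em v) j0 k ω ∪ H)) ω
    (fun ω' => I (alv (em v) j0 (k + 1) ω' ∧ ¬ NTk (em v) j0 k ω')) ≤
    C / (l : ℝ) ^ ((1 / 4) : ℝ) * (g.N : ℝ) ^ ((1 / 4 : ℝ) - κ)

/-- SUCF (from `CIRC`) -/
def SUCF : Prop := ∃ c0 : ℝ, 0 < c0 ∧ ∃ w0 : ℕ, ∀ c : Cf, c.Ok → w0 ≤ c.a →
  ∀ (v : c.V) (j0 k : ℕ), c.use j0 (em v) → k < j0 → ∀ ω : Finset c.al, mad (em v) j0 k ω →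
  c0 ≤ CX Finset.univ (AR (em v) j0 k ω) ω (fun ω' => I (suc (em v) j0 k ω'))

/-- the inner statement of `F5` for given geometric constants -/
def F5i (g : Gm) (s3 : ℝ) : Prop := ∀ s0 : ℝ, 0 < s0 → ∃ pK : ℝ, 0 < pK ∧ ∃ u0 : ℕ,
  ∀ u : ℕ, u0 ≤ u → ∀ (U : Finset Fc) (col : Fc → Bool) (v z0 : Fc) (p : Pos), St U col →
  IsTip U col p → ph p ∈ Bx v (2 * g.N * g.h * u) → Bx v (2 * g.N * g.h * u) ⊆ U →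
  v ∈ Bx z0 (g.h * u / 8) →
  s0 ≤ ((2 * g.N * g.h * u : ℤ) : ℝ) ^ ((1 / 4) : ℝ) * gv U col v →
  pK ≤ Pr U (fun w => ∃ i, First U (mixc U w col) p (Bx z0 (g.h * u)) i ∧
    Adm g s3 u (unx U (mixc U w col) p i z0) (mixc U w col) z0)

/-- F5F: the attempt is made with positive probability -/
def F5F : Prop := ∀ (g : Gm) (s3 : ℝ), F5i g s3 → ∀ s0 : ℝ, 0 < s0 → ∃ pK : ℝ, 0 < pK ∧
  ∃ u0 : ℕ, ∀ c : Cf, c.Ok → c.g = g → c.s3 = s3 → u0 ≤ c.a → ∀ (v : c.V) (j0 k : ℕ),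
  c.use j0 (em v) → k < j0 → ∀ ω : Finset c.al, alv (em v) j0 k ω → s0 ≤ Gk (em v) j0 k ω →
  pK ≤ CX Finset.univ (Rg (Bx (em v) (c.rho (j0 - k))) ω) ω (fun ω' => I (mad (em v) j0 k ω'))

theorem f5_iff (h : F5) : ∃ s3 : ℝ, 0 < s3 ∧ ∃ N0 : ℤ, ∀ N : ℤ, N0 ≤ N → ∃ h0 : ℤ, ∀ h : ℤ,
    h0 ≤ h → 8 ∣ h → ∃ g : Gm, g.N = N ∧ g.h = h ∧ g.Ok ∧ F5i g s3 := by
  obtain ⟨s3, h1, N0, h2⟩ := h
  refine ⟨s3, h1, N0, fun N hN => ?_⟩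
  obtain ⟨h0, h3⟩ := h2 N hN
  refine ⟨h0, fun h hh h8 => ?_⟩
  obtain ⟨g, rfl, rfl, h4, h5⟩ := h3 h hh h8
  exact ⟨g, rfl, rfl, h4, h5⟩

end Pool.Agent.H87.Inst
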